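import Pool.Agent.H75.PRL.S1
import Pool.Agent.H54.RZ.NUN
import Pool.Agent.H77.RZ.LM
import Pool.Agent.H69.RZ.USE
import Pool.Agent.H33.AVS.NGH

/-!
# PLP: the Gram matrices of a class of odd type
-/

set_option autoImplicit false

namespace Pool.PRL

open Polynomial Matrix Pool.AVR Pool.AVS Pool.RZ Pool.RZ.NUN

namespace PLP

section TR

variable {R : Type} [CommRing R] {a b c : R}

theorem tR_congr {p q : R[X]} (h : cub a b c ∣ p - q) : tR a b c p = tR a b c q := by
  unfold tR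
  have h1 : (p - q) %ₘ cub a b c = 0 :=
    (modByMonic_eq_zero_iff_dvd (NUN.cub_monic a b c)).2 h
  rw [sub_modByMonic] at h1
  rw [sub_eq_zero.1 h1]

theorem tR_add (a b c : R) (p q : R[X]) : tR a b c (p + q) = tR a b c p + tR a b c q := by
  unfold tR
  rw [add_modByMonic, coeff_add]

theorem tR_C_mul (a b c : R) (x : R) (p : R[X]) : tR a b c (C x * p) = x * tR a b c p := by
  unfold tR
  rw [← smul_eq_C_mul, smul_modByMonic, coeff_smul, smul_eq_mul]

end TR

section Cop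

variable {F : Type} [Field F]

theorem lf_cubP (f : F[X] × F[X] × F[X]) : lf (cubP f) = cubK f := by
  unfold lf cubP cubK cub
  simp

theorem lf_dvd {f : F[X] × F[X] × F[X]} {p : F[X][X]} (h : cubP f ∣ p) : cubK f ∣ lf p := by
  obtain ⟨w, hw⟩ := h
  refine ⟨lf w, ?_⟩
  rw [hw, ← lf_cubP]
  exact Polynomial.map_mul (algebraMap F[X] (RatFunc F))

theorem cop_of_UnP (P : F[X]) (f : F[X] × F[X] × F[X]) (p : F[X][X]) (hP : Irreducible P)
    (hp : UnP P f p) : IsCoprime (lf p) (cubK f) := by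
  obtain ⟨-, ν, hν, -, hun⟩ := nun_thm ngh_thm F f p
  have hPν : ¬ P ∣ ν := (hun P hP).1 hp
  have hν0 : ν ≠ 0 := fun h0 => hPν (h0 ▸ dvd_zero P)
  have hν1 : rf ν ≠ 0 := by
    simpa using hν0
  refine USE.coprime_of_norm _ _ (USE.cubK_monic f) ?_
  rw [hν]
  exact hν1

/-- The cofactor relation: `(X - e) q = f - P r`. -/
theorem exists_r {P : F[X]} {f : F[X] × F[X] × F[X]} {e β γ : F[X]} (h : Spl P f e β γ) :
    ∃ r : F[X][X], (X - C e) * (X ^ 2 + C β * X + C γ) = cubP f - C P * r := by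
  obtain ⟨-, ⟨u, hu⟩, ⟨v, hv⟩, ⟨w, hw⟩, -⟩ := h
  refine ⟨C u * X ^ 2 + C v * X + C w, ?_⟩
  have h1 := congrArg (C : F[X] → F[X][X]) hu
  have h2 := congrArg (C : F[X] → F[X][X]) hv
  have h3 := congrArg (C : F[X] → F[X][X]) hw
  simp only [map_add, map_mul, map_sub] at h1 h2 h3
  unfold cubP cub
  linear_combination (-X ^ 2) * h1 - X * h2 - h3

theorem eval_ne {P : F[X]} {f : F[X] × F[X] × F[X]} {e β γ : F[X]} (hP : Irreducible P)
    (h : Spl P f e β γ) (p : F[X][X]) (hp : UnP P f p) : ¬ P ∣ p.eval e := by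
  obtain ⟨r, hr⟩ := exists_r h
  obtain ⟨p', r', w, hw⟩ := hp
  intro hd
  have h1 := congrArg (eval e) hw
  have h2 := congrArg (eval e) hr
  simp only [eval_mul, eval_sub, eval_add, eval_C, eval_X, eval_one, sub_self, zero_mul,
    eval_pow] at h1 h2
  have h3 : P ∣ (1 : F[X]) := by
    obtain ⟨z, hz⟩ := hd
    refine ⟨z * eval e p' - eval e r' - eval e r * eval e w, ?_⟩
    rw [hz] at h1
    linear_combination -h1 + (eval e w) * h2
  exact hP.not_isUnit (isUnit_of_dvd_one h3)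

theorem cop_vp {P : F[X]} {f : F[X] × F[X] × F[X]} {e β γ : F[X]} (hP : Irreducible P)
    (h : Spl P f e β γ) : IsCoprime (lf (vp P β γ)) (cubK f) := by
  obtain ⟨r, hr⟩ := exists_r h
  have hq : ¬ P ∣ e ^ 2 + β * e + γ := h.1 e
  have hq4 : IsCoprime P ((e ^ 2 + β * e + γ) ^ 4) :=
    (hP.coprime_iff_not_dvd.2 hq).pow_right
  obtain ⟨κ', κ, hκ⟩ := hq4
  set q : F[X][X] := X ^ 2 + C β * X + C γ with hqdef
  set Y : F[X][X] := X - C e with hY
  set Z : F[X][X] := X + C (β + e) with hZ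
  set δ : F[X] := e ^ 2 + β * e + γ with hδ
  have hqYZ : q = Y * Z + C δ := by
    rw [hqdef, hY, hZ, hδ]
    simp only [map_add, map_mul, map_pow]
    ring
  have hκC := congrArg (C : F[X] → F[X][X]) hκ
  simp only [map_add, map_mul, map_pow, map_one] at hκC
  -- the unit
  have hun : UnP P f (q ^ 2 + Y ^ 2 + C P * (r ^ 2 + 1)) := by
    refine ⟨(q ^ 2 + Y ^ 2 * Z ^ 4) * C κ, -C κ' - C κ * r * (q * Y * Z ^ 4 + Y * q +
      4 * q ^ 2 * Z - 6 * q * Y * Z ^ 2 + 4 * Y ^ 2 * Z ^ 3) +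
      C κ * (r ^ 2 + 1) * (q ^ 2 + Y ^ 2 * Z ^ 4), C κ * (q * Y * Z ^ 4 + Y * q +
      4 * q ^ 2 * Z - 6 * q * Y * Z ^ 2 + 4 * Y ^ 2 * Z ^ 3), ?_⟩
    have hd : C δ = q - Y * Z := by rw [hqYZ]; ring
    rw [hd] at hκC
    linear_combination (C κ * (q * Y * Z ^ 4 + Y * q +
      4 * q ^ 2 * Z - 6 * q * Y * Z ^ 2 + 4 * Y ^ 2 * Z ^ 3)) * hr + hκC
  have hco := cop_of_UnP P f _ hP hun
  have hP0 : rf P ≠ 0 := by
    simpa using hP.ne_zero
  have hCP : IsUnit (C (rf P) : (RatFunc F)[X]) := isUnit_C.2 hP0.isUnit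
  have h1 : IsCoprime (C (rf P) * lf (q ^ 2 + Y ^ 2 + C P * (r ^ 2 + 1))) (cubK f) :=
    (isCoprime_mul_unit_left_left hCP _ _).2 hco
  have h2 : C (rf P) * lf (q ^ 2 + Y ^ 2 + C P * (r ^ 2 + 1)) =
      lf (vp P β γ) * lf (Y ^ 2 + C P) +
        cubK f * lf (-(cubP f - 2 * C P * r)) := by
    rw [← lf_cubP]
    have h3 : C P * (q ^ 2 + Y ^ 2 + C P * (r ^ 2 + 1)) =
        vp P β γ * (Y ^ 2 + C P) + cubP f * (-(cubP f - 2 * C P * r)) := by
      unfold vp
      rw [← hqdef]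
      linear_combination (-(Y * q) - (cubP f - C P * r)) * hr
    have h4 := congrArg lf h3
    simp only [lf, Polynomial.map_mul, Polynomial.map_add, Polynomial.map_C] at h4 ⊢
    exact h4
  rw [h2] at h1
  exact (IsCoprime.of_add_mul_left_left h1).of_mul_left_left

end Cop

section Gram

variable {K : Type} [Field K]

/-- The matrix of the coordinates of `s e_j`. -/
noncomputable def gm (a b c : K) (s : K[X]) (e : Fin 3 → K[X]) : Matrix (Fin 3) (Fin 3) K :=
  Matrix.of fun i j => LM.co a b c (s * e j) i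

theorem gm_g0 (a b c : K) (h h' s : K[X]) (e : Fin 3 → K[X]) (hh : cub a b c ∣ h * s ^ 2 - h')
    (j k : Fin 3) : ((gm a b c s e)ᵀ * gr0 a b c h * gm a b c s e) j k =
      tau a b c (e j * e k * h') := by
  rw [Matrix.mul_apply]
  simp only [Matrix.mul_apply, Matrix.transpose_apply, gm, Matrix.of_apply, gr0]
  rw [LM.tau_co a b c h (s * e j) (s * e k)]
  apply LM.tau_congr
  obtain ⟨u, hu⟩ := hh
  exact ⟨e j * e k * u, by linear_combination (e j * e k) * hu⟩

theorem gm_g1 (a b c : K) (h h' s : K[X]) (e : Fin 3 → K[X]) (hh : cub a b c ∣ h * s ^ 2 - h')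
    (j k : Fin 3) : ((gm a b c s e)ᵀ * gr1 a b c h * gm a b c s e) j k =
      tau a b c (X * (e j * e k * h')) := by
  rw [Matrix.mul_apply]
  simp only [Matrix.mul_apply, Matrix.transpose_apply, gm, Matrix.of_apply, gr1]
  have e' : ∀ i l : Fin 3, tau a b c (X * (X ^ (i : ℕ) * X ^ (l : ℕ) * h)) =
      tau a b c (X ^ (i : ℕ) * X ^ (l : ℕ) * (X * h)) := fun i l => by
    rw [show X * (X ^ (i : ℕ) * X ^ (l : ℕ) * h) = X ^ (i : ℕ) * X ^ (l : ℕ) * (X * h) by ring]
  simp only [e']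
  rw [LM.tau_co a b c (X * h) (s * e j) (s * e k)]
  apply LM.tau_congr
  obtain ⟨u, hu⟩ := hh
  exact ⟨X * (e j * e k) * u, by linear_combination (X * (e j * e k)) * hu⟩

theorem quad_zero {x y z : K} (h : C x * X ^ 2 + C y * X + C z = 0) : x = 0 ∧ y = 0 ∧ z = 0 := by
  have c2 := congrArg (fun p => p.coeff 2) h
  have c1 := congrArg (fun p => p.coeff 1) h
  have c0 := congrArg (fun p => p.coeff 0) h
  simp [coeff_X, coeff_C] at c2 c1 c0
  exact ⟨c2, c1, c0⟩

theorem gm_det (a b c e β γ : K) (s : K[X]) (hs : IsCoprime s (cub a b c))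
    (hq : e ^ 2 + β * e + γ ≠ 0) :
    (gm a b c s ![X ^ 2 + C β * X + C γ, X - C e, X * (X - C e)]).det ≠ 0 := by
  intro h0
  obtain ⟨v, hv, hv0⟩ := (Matrix.exists_mulVec_eq_zero_iff).2 h0
  have hco : ∀ i, LM.co a b c (s * (C (v 0) * (X ^ 2 + C β * X + C γ) +
      C (v 1) * (X - C e) + C (v 2) * (X * (X - C e)))) i = 0 := by
    intro i
    have h1 := congrFun hv0 i
    simp only [Matrix.mulVec, dotProduct, Fin.sum_univ_three, gm, Matrix.of_apply,
      Pi.zero_apply, Matrix.cons_val_zero, Matrix.cons_val_one, Matrix.cons_val_two,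
      Matrix.head_cons, Matrix.tail_cons] at h1
    have h2 : s * (C (v 0) * (X ^ 2 + C β * X + C γ) +
      C (v 1) * (X - C e) + C (v 2) * (X * (X - C e))) =
      (v 0) • (s * (X ^ 2 + C β * X + C γ)) + (v 1) • (s * (X - C e)) +
      (v 2) • (s * (X * (X - C e))) := by
      simp only [smul_eq_C_mul]
      ring
    rw [h2]
    unfold LM.co at h1 ⊢
    rw [add_modByMonic, add_modByMonic, smul_modByMonic, smul_modByMonic, smul_modByMonic,
      coeff_add, coeff_add, coeff_smul, coeff_smul, coeff_smul, smul_eq_mul, smul_eq_mul,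
      smul_eq_mul]
    linear_combination h1
  set V : K[X] := C (v 0) * (X ^ 2 + C β * X + C γ) +
      C (v 1) * (X - C e) + C (v 2) * (X * (X - C e)) with hV
  have hd := LM.co_spec a b c (s * V)
  rw [hco, hco, hco] at hd
  simp only [C_0, zero_mul, add_zero, sub_zero] at hd
  have hdV : cub a b c ∣ V := hs.symm.dvd_of_dvd_mul_left hd
  have hV' : V = C (v 0 + v 2) * X ^ 2 + C (v 0 * β + v 1 - v 2 * e) * X +
      C (v 0 * γ - v 1 * e) := by
    rw [hV]
    simp only [map_add, map_sub, map_mul]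
    ring
  have hVd : V.natDegree ≤ 2 := by
    rw [hV']
    compute_degree
  have hV0 : V = 0 := by
    by_contra hne
    have := natDegree_le_of_dvd hdV hne
    rw [LM.cub_natDegree] at this
    omega
  rw [hV'] at hV0
  obtain ⟨c2, c1, c0⟩ := quad_zero hV0
  have v0 : v 0 = 0 := by
    have : v 0 * (e ^ 2 + β * e + γ) = 0 := by
      linear_combination (e ^ 2) * c2 + e * c1 + c0
    rcases mul_eq_zero.1 this with h | h
    · exact h
    · exact absurd h hq
  have v2 : v 2 = 0 := by linear_combination c2 - v0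
  have v1 : v 1 = 0 := by linear_combination c1 - β * v0 + e * v2
  apply hv
  funext i
  fin_cases i
  · exact v0
  · exact v1
  · exact v2

end Gram

end PLP

open PLP in
theorem plp : PLPStmt := by
  intro F _ _ h2 P f hPm hP e β γ hS h s p hh hp hdiv
  obtain ⟨r, hr⟩ := exists_r hS
  have hq : ¬ P ∣ e ^ 2 + β * e + γ := hS.1 e
  have hpe := eval_ne hP hS p hp
  have hcs : IsCoprime s (cubK f) := by
    have h1 : IsCoprime (lf (vp P β γ * p)) (cubK f) := by
      have := (cop_vp hP hS).mul_left (cop_of_UnP P f p hP hp)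
      rwa [lf, lf, ← Polynomial.map_mul] at this
    obtain ⟨w, hw⟩ := hdiv
    have h3 : lf (vp P β γ * p) = h * s ^ 2 + cubK f * (-w) := by linear_combination -hw
    rw [h3] at h1
    have h4 := (IsCoprime.of_add_mul_left_left h1).of_mul_left_right
    rw [pow_two] at h4
    exact h4.of_mul_left_left
  have hP0 : rf P ≠ 0 := by
    simpa using hP.ne_zero
  set q : F[X][X] := X ^ 2 + C β * X + C γ with hqd
  set E : Fin 3 → F[X][X] := ![q, X - C e, X * (X - C e)] with hE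
  have hEl : (fun j => lf (E j)) = ![X ^ 2 + C (rf β) * X + C (rf γ), X - C (rf e),
      X * (X - C (rf e))] := by
    funext j
    fin_cases j <;> simp [hE, hqd, lf, rf]
  refine ⟨gm (kf f).1 (kf f).2.1 (kf f).2.2 s (fun j => lf (E j)),
    Matrix.of fun j k => tR f.1 f.2.1 f.2.2 (E j * E k * (vp P β γ * p)),
    Matrix.of fun j k => tR f.1 f.2.1 f.2.2 (X * (E j * E k * (vp P β γ * p))),
    ?_, ?_, ?_, ?_, ?_, ?_⟩
  · rw [hEl]
    refine gm_det _ _ _ _ _ _ s hcs ?_
    intro h0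
    apply hq
    have : rf (e ^ 2 + β * e + γ) = 0 := by
      simpa only [rf, map_add, map_mul, map_pow] using h0
    have h3 : e ^ 2 + β * e + γ = 0 := by
      have := rf_inj (x := e ^ 2 + β * e + γ) (y := 0) (by rw [this]; simp)
      exact this
    rw [h3]
    exact dvd_zero P
  · ext j k
    refine (gm_g0 (kf f).1 (kf f).2.1 (kf f).2.2 h (lf (vp P β γ * p)) s (fun j => lf (E j))
      hdiv j k).trans ?_
    have h1 : lf (E j) * lf (E k) * lf (vp P β γ * p) = lf (E j * E k * (vp P β γ * p)) := by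
      simp only [lf, Polynomial.map_mul]
    rw [h1, tau_lf]
    rfl
  · ext j k
    refine (gm_g1 (kf f).1 (kf f).2.1 (kf f).2.2 h (lf (vp P β γ * p)) s (fun j => lf (E j))
      hdiv j k).trans ?_
    have h1 : X * (lf (E j) * lf (E k) * lf (vp P β γ * p)) =
        lf (X * (E j * E k * (vp P β γ * p))) := by
      simp only [lf, Polynomial.map_mul, Polynomial.map_X]
    rw [h1, tau_lf]
    rfl
  · -- the unit
    obtain ⟨w, hw⟩ := X_sub_C_dvd_sub_C_eval (p := p * q ^ 3) (a := e)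
    have h1 : (p * q ^ 3).eval e = p.eval e * (e ^ 2 + β * e + γ) ^ 3 := by
      simp [hqd]
    rw [h1] at hw
    have h3 : tR f.1 f.2.1 f.2.2 (E 0 * E 0 * (vp P β γ * p)) =
        p.eval e * (e ^ 2 + β * e + γ) ^ 3 + P * tR f.1 f.2.1 f.2.2 (q ^ 2 * p - r * w) := by
      have h4 : tR f.1 f.2.1 f.2.2 (E 0 * E 0 * (vp P β γ * p)) = tR f.1 f.2.1 f.2.2
          (C (p.eval e * (e ^ 2 + β * e + γ) ^ 3) * q + C P * (q ^ 2 * p - r * w)) := by
        apply tR_congr
        refine ⟨w, ?_⟩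
        change q * q * ((q ^ 2 + C P) * p) - _ = cubP f * w
        linear_combination q * hw + w * hr
      rw [h4, tR_add, tR_C_mul, tR_C_mul]
      have h5 : tR f.1 f.2.1 f.2.2 q = 1 := by
        apply tR_of (v := β) (w := γ)
        rw [hqd, C_1, one_mul, sub_self]
        exact dvd_zero _
      rw [h5, mul_one]
    change ¬ P ∣ tR f.1 f.2.1 f.2.2 (E 0 * E 0 * (vp P β γ * p))
    rw [h3]
    intro hd
    have h4 := (dvd_add_left (dvd_mul_right P _)).1 hd
    rcases hP.prime.dvd_or_dvd h4 with h5 | h5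
    · exact hpe h5
    · exact hq (hP.prime.dvd_of_dvd_pow h5)
  · intro j
    have hE1 : E j.succ = (X - C e) * X ^ (j : ℕ) := by
      fin_cases j
      · simp [hE]
      · simp [hE, mul_comm]
    have hE0 : E 0 = q := rfl
    constructor
    · change P ∣ tR f.1 f.2.1 f.2.2 (E 0 * E j.succ * (vp P β γ * p))
      have h4 : tR f.1 f.2.1 f.2.2 (E 0 * E j.succ * (vp P β γ * p)) = tR f.1 f.2.1 f.2.2
          (C P * (-(r * X ^ (j : ℕ) * (vp P β γ * p)))) := by
        apply tR_congr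
        refine ⟨X ^ (j : ℕ) * (vp P β γ * p), ?_⟩
        rw [hE1, hE0]
        change _ = cubP f * _
        linear_combination (X ^ (j : ℕ) * (vp P β γ * p)) * hr
      rw [h4, tR_C_mul]
      exact dvd_mul_right _ _
    · change P ∣ tR f.1 f.2.1 f.2.2 (X * (E 0 * E j.succ * (vp P β γ * p)))
      have h4 : tR f.1 f.2.1 f.2.2 (X * (E 0 * E j.succ * (vp P β γ * p))) =
          tR f.1 f.2.1 f.2.2 (C P * (-(X * r * X ^ (j : ℕ) * (vp P β γ * p)))) := by
        apply tR_congr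
        refine ⟨X * X ^ (j : ℕ) * (vp P β γ * p), ?_⟩
        rw [hE1, hE0]
        change _ = cubP f * _
        linear_combination (X * X ^ (j : ℕ) * (vp P β γ * p)) * hr
      rw [h4, tR_C_mul]
      exact dvd_mul_right _ _
  · intro i j
    have hE1 : ∀ j : Fin 2, E j.succ = (X - C e) * X ^ (j : ℕ) := by
      intro j
      fin_cases j
      · simp [hE]
      · simp [hE, mul_comm]
    have key : ∀ Y : F[X][X], tR f.1 f.2.1 f.2.2 (Y * (E i.succ * E j.succ * (vp P β γ * p))) =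
        P * (tR f.1 f.2.1 f.2.2 (Y * (p * (X - C e) ^ 2 * X ^ ((i : ℕ) + (j : ℕ)))) +
          P * tR f.1 f.2.1 f.2.2 (Y * (r ^ 2 * X ^ ((i : ℕ) + (j : ℕ)) * p))) := by
      intro Y
      have h4 : tR f.1 f.2.1 f.2.2 (Y * (E i.succ * E j.succ * (vp P β γ * p))) =
          tR f.1 f.2.1 f.2.2 (C P * (Y * (p * (X - C e) ^ 2 * X ^ ((i : ℕ) + (j : ℕ))) +
            C P * (Y * (r ^ 2 * X ^ ((i : ℕ) + (j : ℕ)) * p)))) := by
        apply tR_congr
        refine ⟨(cubP f - 2 * C P * r) * (Y * X ^ ((i : ℕ) + (j : ℕ)) * p), ?_⟩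
        rw [hE1, hE1]
        change Y * ((X - C e) * X ^ (i : ℕ) * ((X - C e) * X ^ (j : ℕ)) *
          ((q ^ 2 + C P) * p)) - _ = cubP f * _
        linear_combination (((X - C e) * q + cubP f - C P * r) *
          (Y * X ^ ((i : ℕ) + (j : ℕ)) * p)) * hr
      rw [h4, tR_C_mul, tR_add, tR_C_mul]
    have key0 := key 1
    have key1 := key X
    simp only [one_mul] at key0
    refine ⟨_, _, key0, key1, ?_, ?_⟩
    · rw [tau_lf, ← map_sub, add_sub_cancel_left, map_mul, mul_div_cancel_left₀ _ hP0]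
      exact USE.mem_IP_rf hP _
    · rw [tau_lf, ← map_sub, add_sub_cancel_left, map_mul, mul_div_cancel_left₀ _ hP0]
      exact USE.mem_IP_rf hP _

end Pool.PRL
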